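import Pool.Agent.R707.SelflessG

/-!
MP_608f54_al, Q1: there is an infinite finitely generated group which is `f`-selfless with
`f = o(n^2)`; in fact with `f(n) ≤ 192 n^(3/2)`.
-/

open Filter Asymptotics Topology

namespace Pool.Agent.Results.MP_608f54_al.SubquadraticSelfless

open Pool.Agent.R707.Selfless

/-- There are an infinite group `G`, a finite generating set `S` of `G` and a function `f` with
`f(n) ≤ 192 n^(3/2)`, so that `f = o(n^2)`, such that `G` with `S` is `f`-selfless. -/
theorem result : ∃ (G : Type) (_ : Group G) (S : Set G) (f : ℕ → ℝ),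
    Infinite G ∧ S.Finite ∧ Subgroup.closure S = ⊤ ∧ IsSelfless G S f ∧
      (∀ n : ℕ, 1 ≤ n → f n ≤ 192 * (n : ℝ) ^ ((3 : ℝ) / 2)) ∧
        (fun n : ℕ => f n) =o[atTop] (fun n : ℕ => (n : ℝ) ^ 2) := by
  refine ⟨GG, inferInstance, SS, fun n => (ff n : ℝ), ?_, ?_, ?_, ⟨?_, main_hom⟩, ff_le, ?_⟩
  · refine Infinite.of_injective (fun n : ℤ => ioG ⟨0, 0, n⟩) ?_
    intro a b h
    have h1 : (ioG ⟨0, 0, a⟩ : Gam) = ioG ⟨0, 0, b⟩ := congrArg Subtype.val h
    have h2 := iot_inj h1
    exact congrArg Heis.k h2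
  · exact Set.Finite.preimage Subtype.val_injective.injOn (by simp)
  · exact Subgroup.closure_closure_coe_preimage
  · -- the lower limit of `f(n)^(1/n)`
    have hup : Tendsto (fun n : ℕ => ((192 : ℝ) * (n : ℝ) ^ 2) ^ ((1 : ℝ) / n)) atTop (𝓝 1) := by
      have h1 : Tendsto (fun n : ℕ => (192 : ℝ) ^ ((1 : ℝ) / n)) atTop (𝓝 1) := by
        have := (tendsto_const_nhds (x := (192 : ℝ)) (f := (atTop : Filter ℕ))).rpow
          tendsto_one_div_atTop_nhds_zero_nat (Or.inl (by norm_num))
        rwa [Real.rpow_zero] at this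
      have h2 : Tendsto (fun n : ℕ => ((n : ℝ) ^ ((1 : ℝ) / n)) ^ 2) atTop (𝓝 1) := by
        have := (tendsto_rpow_div.comp tendsto_natCast_atTop_atTop).pow 2
        rwa [one_pow] at this
      have h3 := h1.mul h2
      rw [mul_one] at h3
      refine h3.congr fun n => ?_
      rw [Real.mul_rpow (by norm_num) (by positivity), ← Real.rpow_natCast, ← Real.rpow_natCast,
        ← Real.rpow_mul (by positivity), ← Real.rpow_mul (by positivity), mul_comm ((1 : ℝ) / n)]
    have hlim : Tendsto (fun n : ℕ => (ff n : ℝ) ^ ((1 : ℝ) / n)) atTop (𝓝 1) := by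
      refine tendsto_of_tendsto_of_tendsto_of_le_of_le' tendsto_const_nhds hup ?_ ?_
      · exact Eventually.of_forall fun n => Real.one_le_rpow (by exact_mod_cast ff_ge n)
          (by positivity)
      · filter_upwards [eventually_ge_atTop 1] with n hn
        refine Real.rpow_le_rpow (by positivity) ?_ (by positivity)
        refine (ff_le n hn).trans ?_
        have hn1 : (1 : ℝ) ≤ n := by exact_mod_cast hn
        have : (n : ℝ) ^ ((3 : ℝ) / 2) ≤ (n : ℝ) ^ (2 : ℝ) :=
          Real.rpow_le_rpow_of_exponent_le hn1 (by norm_num)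
        rw [Real.rpow_two] at this
        linarith
    exact hlim.liminf_eq
  · -- little o
    have h0 : Tendsto (fun n : ℕ => 192 * (n : ℝ) ^ (-((1 : ℝ) / 2))) atTop (𝓝 0) := by
      have := ((tendsto_rpow_neg_atTop (y := (1 : ℝ) / 2) (by norm_num)).comp
        tendsto_natCast_atTop_atTop).const_mul 192
      rwa [mul_zero] at this
    rw [isLittleO_iff_tendsto' (by
      filter_upwards [eventually_ge_atTop 1] with n hn h
      have hn1 : (1 : ℝ) ≤ n := by exact_mod_cast hn
      nlinarith)]
    refine tendsto_of_tendsto_of_tendsto_of_le_of_le' tendsto_const_nhds h0 ?_ ?_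
    · exact Eventually.of_forall fun n => by positivity
    · filter_upwards [eventually_ge_atTop 1] with n hn
      have hn1 : (1 : ℝ) ≤ n := by exact_mod_cast hn
      have hn0 : (0 : ℝ) < n := by linarith
      rw [div_le_iff₀ (by positivity)]
      refine (ff_le n hn).trans (le_of_eq ?_)
      rw [mul_assoc, ← Real.rpow_natCast, ← Real.rpow_add hn0]
      norm_num

end Pool.Agent.Results.MP_608f54_al.SubquadraticSelfless
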